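import Pool.Agent.Lib.MP_c7af3c_ag.GEN.Interfaces

/-!
Module GLOB of project GEN (product formula inequality).
-/

set_option autoImplicit false

namespace Pool.Agent.Gen.H52

open MvPolynomial WithZero Pool.Agent.Gen

theorem glob : GlobStatement := by
  classical
  intro hR hLin hLoc L _ n c d D x hx h0 hdim S hS M hM hdel hcoef
  obtain ⟨C, μ, hμ, hpt, hOk, hwt, hdet⟩ := hLin L n c d (D.toSys hR x hx h0)
  set w0 := ∑ k, (C k).wt with hw0
  set Dd := ∑ m, d m with hDd
  -- local inequality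
  have hlocal : ∀ p, log (S.v p μ) + (Dd : ℤ) * log (S.mx x p) ≤
      (2 * n + 2 : ℤ) * M p + w0 * log (S.mx x p) := by
    intro p
    obtain ⟨i, hi⟩ := S.exists_mx x p
    have hmx0 := S.mx_ne_zero x hx p
    have hM1 : (1 : ℤᵐ⁰) ≤ exp (M p : ℤ) := by
      rw [← exp_zero]
      exact WithZero.exp_le_exp.2 (by positivity)
    have h1 := hLoc hR L n c d D x hx h0 (S.v p) (exp (M p : ℤ)) (S.mx x p) hM1
      (fun m I hI f hf => hdel p m I hI f hf) (fun m I => hcoef p m I) (S.le_mx x p) ⟨i, hi⟩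
      C hpt hOk i
    rw [hdet i] at h1
    have e1 : (D.toSys hR x hx h0).x i = x i := rfl
    rw [e1, map_mul, map_pow, hi] at h1
    have hμ0 : S.v p μ ≠ 0 := by
      rw [Ne, map_eq_zero]
      exact hμ
    rw [← exp_log hμ0, ← exp_log hmx0] at h1
    rw [← exp_nsmul, ← exp_add, ← exp_nsmul, ← exp_nsmul, ← exp_add] at h1
    have h2 := WithZero.exp_le_exp.1 h1
    simp only [nsmul_eq_mul] at h2
    rw [← hw0] at h2
    have h3 : ((2 * n + 2 : ℕ) : ℤ) = 2 * n + 2 := by push_cast; ring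
    rw [h3] at h2
    exact h2
  -- finite sums
  have hf1 := S.finite_mx x hS.fin hx
  have hf2 := hS.fin μ hμ
  set T : Finset S.V := hf1.toFinset ∪ hf2.toFinset ∪ hM.toFinset with hT
  have hs1 : S.ht x = ∑ p ∈ T, (S.w p : ℤ) * log (S.mx x p) := by
    refine finsum_eq_sum_of_support_subset _ ?_
    intro p hp
    simp only [Function.mem_support, ne_eq, mul_eq_zero, not_or] at hp
    rw [hT]
    simp only [Finset.coe_union, Set.Finite.coe_toFinset, Set.mem_union]
    left; left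
    intro h
    exact hp.2 (by rw [h, log_one])
  have hs2 : (0 : ℤ) = ∑ p ∈ T, (S.w p : ℤ) * log (S.v p μ) := by
    rw [← hS.prod μ hμ]
    refine finsum_eq_sum_of_support_subset _ ?_
    intro p hp
    simp only [Function.mem_support, ne_eq, mul_eq_zero, not_or] at hp
    rw [hT]
    simp only [Finset.coe_union, Set.Finite.coe_toFinset, Set.mem_union]
    left; right
    intro h
    exact hp.2 (by rw [h, log_one])
  have hs3 : ∑ᶠ p, (S.w p : ℤ) * (M p : ℤ) = ∑ p ∈ T, (S.w p : ℤ) * (M p : ℤ) := by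
    refine finsum_eq_sum_of_support_subset _ ?_
    intro p hp
    simp only [Function.mem_support, ne_eq, mul_eq_zero, not_or] at hp
    rw [hT]
    simp only [Finset.coe_union, Set.Finite.coe_toFinset, Set.mem_union]
    right
    intro h
    exact hp.2 (by rw [h]; rfl)
  have hsum : (Dd : ℤ) * S.ht x ≤ (2 * n + 2 : ℤ) * ∑ᶠ p, (S.w p : ℤ) * (M p : ℤ) +
      w0 * S.ht x := by
    rw [hs1, hs3]
    calc (Dd : ℤ) * ∑ p ∈ T, (S.w p : ℤ) * log (S.mx x p)
        = ∑ p ∈ T, (S.w p : ℤ) * log (S.v p μ) +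
          (Dd : ℤ) * ∑ p ∈ T, (S.w p : ℤ) * log (S.mx x p) := by rw [← hs2, zero_add]
      _ = ∑ p ∈ T, (S.w p : ℤ) * (log (S.v p μ) + (Dd : ℤ) * log (S.mx x p)) := by
        rw [Finset.mul_sum, ← Finset.sum_add_distrib]
        refine Finset.sum_congr rfl fun p _ => ?_
        ring
      _ ≤ ∑ p ∈ T, (S.w p : ℤ) * ((2 * n + 2 : ℤ) * M p + w0 * log (S.mx x p)) :=
        Finset.sum_le_sum fun p _ => mul_le_mul_of_nonneg_left (hlocal p) (by positivity)
      _ = _ := by
        rw [Finset.mul_sum, Finset.mul_sum, ← Finset.sum_add_distrib]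
        refine Finset.sum_congr rfl fun p _ => ?_
        ring
  have hB : (0 : ℤ) ≤ (2 * n + 2 : ℤ) * ∑ᶠ p, (S.w p : ℤ) * (M p : ℤ) := by
    rw [hs3]
    refine mul_nonneg (by positivity) (Finset.sum_nonneg fun p _ => by positivity)
  have hgap : (1 : ℤ) ≤ (Dd : ℤ) - w0 := by
    have h1 : w0 + c ≤ 2 * n + 1 := hwt
    have h2 : 2 * n + 2 ≤ c + Dd := hdim
    have h1' : (w0 : ℤ) + c ≤ 2 * n + 1 := by exact_mod_cast h1
    have h2' : 2 * (n : ℤ) + 2 ≤ c + Dd := by exact_mod_cast h2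
    linarith
  rcases le_or_gt 0 (S.ht x) with hh | hh
  · nlinarith
  · exact hh.le.trans hB

end Pool.Agent.Gen.H52
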