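import Pool.Agent.Lib.MP_c7af3c_ag.GEN.Interfaces

/-!
Module HEIGHT of project GEN (bounded heights in every direction).
-/

set_option autoImplicit false

namespace Pool.Agent.Gen.H52

open MvPolynomial WithZero Pool.Agent.Gen

theorem height (hR : RelnStatement) (hLin : LinStatement) (hLoc : LocStatement)
    (hGlob : GlobStatement) (hProd : ProdStatement) (hDerb : DerbStatement)
    (hDir : DirStatement) : HeightStatement := by
  classical
  intro k0 K _ _ _ _ N T hdir n c d D hdel hdim i
  set S := ffPlaces (hdir i) with hSdef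
  have hS : S.IsProd := hProd _ K _ (hdir i)
  have hM : ∀ j, ∃ M : S.V → ℕ, {p | M p ≠ 0}.Finite ∧
      ∀ p f, S.v p f ≤ 1 → S.v p (T.del j f) ≤ exp (M p : ℤ) := by
    intro j
    have := hDerb _ K _ (hdir i) ((T.del j).restrictScalars ℤ) ?_ ?_
    · exact this
    · rintro ⟨a, ha⟩
      exact ⟨⟨_, (hDir k0 K N T i).2 j a ha⟩, rfl⟩
    · have h1 : T.del j (T.t i) = if j = i then 1 else 0 := T.dual j i
      refine ⟨if j = i then 1 else 0, ?_⟩
      change T.del j (T.t i) = _
      rw [h1]
      split_ifs
      · rw [map_one]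
      · rw [map_zero]
  choose Mj hMjfin hMj using hM
  set Ma : S.V → ℕ := fun p => ∑ m, ∑ I ∈ (D.F m).support, (log (S.v p (coeff I (D.F m)))).toNat
    with hMa
  set M : S.V → ℕ := fun p => ∑ j, Mj j p + Ma p with hMdef
  have hMfin : {p | M p ≠ 0}.Finite := by
    have h1 : (⋃ j, {p | Mj j p ≠ 0}).Finite := Set.finite_iUnion hMjfin
    have h2 : (⋃ m, ⋃ I ∈ (D.F m).support, {p | S.v p (coeff I (D.F m)) ≠ 1}).Finite := by
      refine Set.finite_iUnion fun m => Set.Finite.biUnion (Finset.finite_toSet _) fun I hI => ?_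
      exact hS.fin _ (mem_support_iff.1 hI)
    refine (h1.union h2).subset fun p hp => ?_
    by_contra hc
    simp only [Set.mem_union, Set.mem_iUnion, Set.mem_ofPred_eq, not_or, not_exists, not_not] at hc
    apply hp
    have e1 : ∑ j, Mj j p = 0 := Finset.sum_eq_zero fun j _ => hc.1 j
    have e2 : Ma p = 0 := by
      simp only [hMa]
      refine Finset.sum_eq_zero fun m _ => Finset.sum_eq_zero fun I hI => ?_
      have := hc.2 m I hI
      rw [this, log_one]
      rfl
    simp only [hMdef]
    rw [e1, e2]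
  refine ⟨(2 * n + 2) * ∑ᶠ p, (S.w p : ℤ) * M p, fun x hx h0 => ?_⟩
  refine hGlob hR hLin hLoc K n c d D x hx h0 hdim S hS M hMfin ?_ ?_
  · intro p m I hI f hf
    obtain ⟨j, hj⟩ := hdel m I hI
    rw [hj f]
    refine (hMj j p f hf).trans (WithZero.exp_le_exp.2 ?_)
    have h1 : Mj j p ≤ ∑ j, Mj j p :=
      Finset.single_le_sum (f := fun j => Mj j p) (fun _ _ => Nat.zero_le _) (Finset.mem_univ j)
    have h2 : Mj j p ≤ M p := by
      simp only [hMdef]
      omega
    exact_mod_cast h2
  · intro p m I
    by_cases hI : I ∈ (D.F m).support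
    · have hne : S.v p (coeff I (D.F m)) ≠ 0 := by
        rw [Ne, map_eq_zero]
        exact mem_support_iff.1 hI
      rw [← exp_log hne]
      refine WithZero.exp_le_exp.2 ((Int.self_le_toNat _).trans ?_)
      have h1 : (log (S.v p (coeff I (D.F m)))).toNat ≤
          ∑ I ∈ (D.F m).support, (log (S.v p (coeff I (D.F m)))).toNat :=
        Finset.single_le_sum (f := fun I => (log (S.v p (coeff I (D.F m)))).toNat)
          (fun _ _ => Nat.zero_le _) hI
      have h2 : ∑ I ∈ (D.F m).support, (log (S.v p (coeff I (D.F m)))).toNat ≤ Ma p :=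
        Finset.single_le_sum
          (f := fun m => ∑ I ∈ (D.F m).support, (log (S.v p (coeff I (D.F m)))).toNat)
          (fun _ _ => Nat.zero_le _) (Finset.mem_univ m)
      have h3 : (log (S.v p (coeff I (D.F m)))).toNat ≤ M p := by
        simp only [hMdef]
        omega
      exact_mod_cast h3
    · rw [notMem_support_iff.1 hI, map_zero]
      exact zero_le

end Pool.Agent.Gen.H52
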