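import Pool.Agent.Lib.MP_c7af3c_ag.GEN.Interfaces

/-!
Module LOC of project GEN (one valuation).
-/

set_option autoImplicit false

namespace Pool.Agent.Gen.H52

open MvPolynomial WithZero Pool.Agent.Gen

theorem V_scale {L : Type} [Field L] {n c : ℕ} {d : Fin c → ℕ} (D : DSys L n c d) (l : L)
    (x x' : Fin (n + 1) → L) (hx : ∀ p, x p = l * x' p) (m : Fin c)
    (G : MvPolynomial (Fin (n + 1)) L) (p : Fin (n + 1)) :
    D.V x m G p = l * D.V x' m G p + (∑ I ∈ G.support, coeff I G * D.del m I l) * x' p := by
  rw [D.V_apply, D.V_apply, Finset.mul_sum, Finset.sum_mul, ← Finset.sum_add_distrib]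
  refine Finset.sum_congr rfl fun I _ => ?_
  rw [hx p, Derivation.leibniz]
  simp only [smul_eq_mul]
  ring

theorem V_bound {L : Type} [Field L] {n c : ℕ} {d : Fin c → ℕ} (D : DSys L n c d)
    (x' : Fin (n + 1) → L) (v : Valuation L ℤᵐ⁰) (M N : ℤᵐ⁰)
    (hdel : ∀ m I, I.degree = d m → ∀ f, v f ≤ 1 → v (D.del m I f) ≤ M)
    (hx' : ∀ p, v (x' p) ≤ 1) (m : Fin c) (G : MvPolynomial (Fin (n + 1)) L)
    (hG : ∀ I ∈ G.support, I.degree = d m) (hN : ∀ I, v (coeff I G) ≤ N) (p : Fin (n + 1)) :
    v (D.V x' m G p) ≤ N * M := by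
  rw [D.V_apply]
  refine v.map_sum_le fun I hI => ?_
  rw [map_mul]
  exact mul_le_mul' (hN I) (hdel m I (hG I hI) _ (hx' p))

theorem v_natCast_le {L : Type} [Field L] (v : Valuation L ℤᵐ⁰) (k : ℕ) : v (k : L) ≤ 1 := by
  induction k with
  | zero => simp
  | succ k ih =>
    push_cast
    exact (v.map_add _ _).trans (max_le ih (by rw [map_one]))

theorem loc : LocStatement := by
  classical
  intro hR L _ n c d D x hx h0 v M s hM hdel hcoef hle hex C hpt hOk i
  obtain ⟨j1, hj1⟩ := hex
  have hs : s ≠ 0 := by
    obtain ⟨j, hj⟩ : ∃ j, x j ≠ 0 := Function.ne_iff.1 hx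
    intro h
    have := hle j
    rw [h, le_zero_iff, map_eq_zero] at this
    exact hj this
  set l : L := x j1 with hl
  have hl0 : l ≠ 0 := by
    intro h
    rw [h, map_zero] at hj1
    exact hs hj1.symm
  set x' : Fin (n + 1) → L := fun p => l⁻¹ * x p with hx'def
  have hxx' : ∀ p, x p = l * x' p := fun p => by
    simp only [hx'def]
    rw [← mul_assoc, mul_inv_cancel₀ hl0, one_mul]
  have hx' : ∀ p, v (x' p) ≤ 1 := by
    intro p
    simp only [hx'def]
    rw [map_mul, map_inv₀, hj1]
    calc s⁻¹ * v (x p) ≤ s⁻¹ * s := mul_le_mul' le_rfl (hle p)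
      _ = 1 := inv_mul_cancel₀ hs
  have hMM : M ≤ M ^ 2 := by
    rw [sq]
    calc M = M * 1 := (mul_one M).symm
      _ ≤ M * M := mul_le_mul' le_rfl hM
  have h1MM : 1 ≤ M ^ 2 := hM.trans hMM
  set S := D.toSys hR x hx h0 with hS
  -- every column
  have hcol : ∀ k, ∃ (C' : Fin (n + 1) → L) (r : L), (∀ p, v (C' p) ≤ M ^ 2) ∧
      (C k = Col.pt → r = 0) ∧ ∀ p, (C k).val S i p = l ^ (C k).wt * C' p + r * x' p := by
    intro k
    have hok := hOk k
    rcases hC : C k with _ | ⟨m, i', j', I⟩ | ⟨p', q'⟩ | m
    · refine ⟨x', 0, fun p => (hx' p).trans h1MM, fun _ => rfl, fun p => ?_⟩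
      simp only [Col.val, Col.wt, pow_one, zero_mul, add_zero]
      exact hxx' p
    · rw [hC] at hok
      simp only [Col.Ok] at hok
      have hXI : ∀ a : Fin (n + 1), (X a * monomial I (1 : L) : MvPolynomial (Fin (n + 1)) L) =
          monomial (Finsupp.single a 1 + I) 1 := by
        intro a
        rw [X, monomial_mul, one_mul]
      have hdeg : ∀ a : Fin (n + 1), (Finsupp.single a 1 + I).degree = d m := by
        intro a
        rw [map_add, Finsupp.degree_single, ← hok, add_comm]
      have hVb : ∀ (a p : Fin (n + 1)), v (D.V x' m (X a * monomial I 1) p) ≤ M := by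
        intro a p
        rw [hXI, D.V_monomial, one_mul]
        exact hdel m _ (hdeg a) _ (hx' p)
      refine ⟨fun p => x' j' * D.V x' m (X i' * monomial I 1) p -
        x' i' * D.V x' m (X j' * monomial I 1) p,
        x j' * (∑ J ∈ (X i' * monomial I (1 : L)).support,
          coeff J (X i' * monomial I (1 : L)) * D.del m J l) -
        x i' * (∑ J ∈ (X j' * monomial I (1 : L)).support,
          coeff J (X j' * monomial I (1 : L)) * D.del m J l), fun p => ?_,
        fun h => (by cases h), fun p => ?_⟩
      · refine (v.map_sub _ _).trans (max_le ?_ ?_)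
        · rw [map_mul]
          calc _ ≤ 1 * M := mul_le_mul' (hx' _) (hVb _ _)
            _ ≤ M ^ 2 := by rw [one_mul]; exact hMM
        · rw [map_mul]
          calc _ ≤ 1 * M := mul_le_mul' (hx' _) (hVb _ _)
            _ ≤ M ^ 2 := by rw [one_mul]; exact hMM
      · have e1 : (Col.Z m i' j' I).val S i p =
            x j' * D.V x m (X i' * monomial I 1) p - x i' * D.V x m (X j' * monomial I 1) p := rfl
        rw [e1, V_scale D l x x' hxx' m _ p, V_scale D l x x' hxx' m _ p, hxx' j', hxx' i']
        simp only [Col.wt]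
        ring
    · have hbW : ∀ (m : Fin c) (p : Fin (n + 1)),
          v (D.V x' m (X q' * pderiv p' (D.F m)) p) ≤ M ^ 2 := by
        intro m p
        rw [sq]
        refine V_bound D x' v M M hdel hx' m _ ?_ ?_ p
        · intro I hI
          rw [mem_support_iff] at hI
          have hdm : d m ≠ 0 := by
            intro h0'
            apply hI
            have hF := D.hom m
            rw [h0'] at hF
            have : D.F m = MvPolynomial.C (coeff 0 (D.F m)) := by
              rw [← totalDegree_eq_zero_iff_eq_C]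
              exact Nat.le_zero.1 hF.totalDegree_le
            rw [this, pderiv_C, mul_zero, coeff_zero]
          have h1 : (X q' * pderiv p' (D.F m)).IsHomogeneous (1 + (d m - 1)) :=
            (isHomogeneous_X L q').mul (D.hom m).pderiv
          have h2 := h1 hI
          have h3 : I.degree = Finsupp.weight 1 I := by
            rw [Finsupp.degree_eq_weight_one]
            rfl
          rw [h3, h2]
          omega
        · intro I
          rw [coeff_X_mul']
          split_ifs
          · rw [coeff_pderiv, map_mul]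
            calc _ ≤ M * 1 := mul_le_mul' (hcoef _ _) (by exact_mod_cast v_natCast_le v _)
              _ = M := mul_one M
          · rw [map_zero]; exact zero_le
      refine ⟨fun p => x' q' * (Pi.single p' (1 : L) : Fin (n + 1) → L) p +
        ∑ m, D.V x' m (X q' * pderiv p' (D.F m)) p,
        ∑ m, (∑ J ∈ (X q' * pderiv p' (D.F m)).support,
          coeff J (X q' * pderiv p' (D.F m)) * D.del m J l), fun p => ?_,
        fun h => (by cases h), fun p => ?_⟩
      · refine (v.map_add _ _).trans (max_le ?_ (v.map_sum_le fun m _ => hbW m p))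
        rw [map_mul]
        refine le_trans ?_ h1MM
        calc _ ≤ (1 : ℤᵐ⁰) * 1 := by
              refine mul_le_mul' (hx' _) ?_
              by_cases hp : p = p'
              · subst hp; simp
              · rw [Pi.single_eq_of_ne hp, map_zero]; exact zero_le
          _ = 1 := one_mul 1
      · have e1 : (Col.W p' q').val S i p =
            x q' * (Pi.single p' (1 : L) : Fin (n + 1) → L) p +
              (∑ m, D.V x m (X q' * pderiv p' (D.F m))) p := rfl
        rw [e1, Finset.sum_apply]
        simp only [V_scale D l x x' hxx' _ _ p]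
        rw [Finset.sum_add_distrib, ← Finset.mul_sum, ← Finset.sum_mul, hxx' q']
        simp only [Col.wt]
        ring
    · refine ⟨fun p => D.V x' m (X i ^ d m) p, ∑ J ∈ (X i ^ d m : MvPolynomial (Fin (n + 1)) L).support,
          coeff J (X i ^ d m : MvPolynomial (Fin (n + 1)) L) * D.del m J l, fun p => ?_,
        fun h => (by cases h), fun p => ?_⟩
      · change v (D.V x' m (X i ^ d m) p) ≤ M ^ 2
        rw [X_pow_eq_monomial, D.V_monomial, one_mul]
        refine (hdel m _ ?_ _ (hx' p)).trans hMM
        rw [Finsupp.degree_single]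
      · have e1 : (Col.U m).val S i p = D.V x m (X i ^ d m) p := rfl
        rw [e1, V_scale D l x x' hxx' m _ p]
        simp only [Col.wt, pow_one]
  choose C' r hC' hr hval using hcol
  obtain ⟨k0, hk0⟩ := hpt
  -- the determinant
  have hdet : S.det C i = (∏ k, l ^ (C k).wt) * Matrix.det (Matrix.of fun a k => C' k a) := by
    rw [← Matrix.det_mul_row]
    unfold Sys.det
    have hwt0 : (C k0).wt = 1 := by rw [hk0]; rfl
    have hx'0 : ∀ p, x' p = C' k0 p := by
      intro p
      have h1 := hval k0 p
      rw [hr k0 hk0, hwt0, hk0] at h1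
      have h2 : Col.val S i Col.pt p = x p := rfl
      rw [h2, hxx' p, zero_mul, add_zero, pow_one] at h1
      exact mul_left_cancel₀ hl0 h1
    rw [← Matrix.det_transpose, ← Matrix.det_transpose
      (Matrix.of fun i j => l ^ (C j).wt * (Matrix.of fun a k => C' k a) i j)]
    refine Matrix.det_eq_of_forall_row_eq_smul_add_const (fun k => r k * l⁻¹) k0 ?_ ?_
    · simp [hr k0 hk0]
    · intro k a
      simp only [Matrix.transpose_apply, Matrix.of_apply]
      rw [hval k a, hwt0, ← hx'0 a, pow_one]
      field_simp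
  rw [hdet, map_mul, map_prod]
  have h1 : ∏ k, v (l ^ (C k).wt) = s ^ (∑ k, (C k).wt) := by
    rw [← Finset.prod_pow_eq_pow_sum]
    refine Finset.prod_congr rfl fun k _ => ?_
    rw [map_pow, hj1]
  have h2 : v (Matrix.det (Matrix.of fun a k => C' k a)) ≤ M ^ (2 * n + 2) := by
    rw [Matrix.det_apply]
    refine v.map_sum_le fun σ _ => ?_
    rw [Units.smul_def, zsmul_eq_mul, map_mul, map_prod]
    have hsgn : v ((Equiv.Perm.sign σ : ℤ) : L) ≤ 1 := by
      rcases Int.units_eq_one_or (Equiv.Perm.sign σ) with h | h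
      · rw [h]; simp
      · rw [h]; simp
    calc _ ≤ (1 : ℤᵐ⁰) * ∏ _a : Fin (n + 1), M ^ 2 :=
          mul_le_mul' hsgn (Finset.prod_le_prod' fun a _ => hC' _ _)
      _ = M ^ (2 * n + 2) := by
        rw [one_mul, Finset.prod_const, Finset.card_univ, Fintype.card_fin, ← pow_mul]
        congr 1
  rw [h1, mul_comm]
  exact mul_le_mul' h2 le_rfl

end Pool.Agent.Gen.H52
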