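import Pool.Agent.Lib.MP_c7af3c_ag.GEN.Interfaces

/-!
Module THM1 of project GEN (assembly of Theorem 1).
-/

set_option autoImplicit false

namespace Pool.Agent.Gen.H52

open MvPolynomial WithZero Pool.Agent.Gen

theorem thm1 (hDeriv : DerivStatement) (hDir : DirStatement) (hHeight : HeightStatement)
    (hCoef : CoefStatement) (hUltra : UltraStatement) (hChain : ChainStatement) :
    Thm1Statement := by
  classical
  intro k0 K _ _ _ _ _ hFG n c d F hhom hindep hdim j0
  by_contra hinf
  rw [← Set.Infinite] at hinf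
  -- finiteness of the index set
  have hfin : Finite {s : Fin c × (Fin (n + 1) →₀ ℕ) // s.2.degree = d s.1} := by
    have h1 : ({s : Fin c × (Fin (n + 1) →₀ ℕ) | s.2.degree = d s.1}).Finite := by
      have h2 : (⋃ m : Fin c, (fun I : Fin (n + 1) →₀ ℕ => (m, I)) ''
          ((Finset.finsuppAntidiag Finset.univ (d m) : Finset (Fin (n + 1) →₀ ℕ)) :
            Set (Fin (n + 1) →₀ ℕ))).Finite :=
        Set.finite_iUnion fun m => (Finset.finite_toSet _).image _
      refine h2.subset ?_
      rintro ⟨m, I⟩ hI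
      rw [Set.mem_iUnion]
      refine ⟨m, I, ?_, rfl⟩
      rw [Finset.mem_coe, Finset.mem_finsuppAntidiag]
      refine ⟨?_, Finset.subset_univ _⟩
      have h3 : I.degree = d m := hI
      rw [← h3, Finsupp.degree_eq_sum]
    exact h1
  obtain ⟨N, T, e, he, hTe⟩ := hDeriv k0 K hFG _ (coeffs d F) hindep
  -- the derivations
  let D : DSys K n c d :=
    { F := F
      hom := hhom
      del := fun m I => if h : I.degree = d m then
        (T.del (e ⟨(m, I), h⟩)).restrictScalars ℤ else 0
      dual := by
        intro m I m' J hI hJ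
        rw [dif_pos hI]
        change T.del (e ⟨(m, I), hI⟩) (coeff J (F m')) = _
        have h1 : coeff J (F m') = T.t (e ⟨(m', J), hJ⟩) := by
          rw [hTe]
          rfl
        rw [h1, T.dual]
        by_cases hmI : m = m' ∧ I = J
        · rw [if_pos hmI, if_pos]
          obtain ⟨h1, h2⟩ := hmI
          subst h1; subst h2
          rfl
        · rw [if_neg hmI, if_neg]
          intro h
          apply hmI
          have := he h
          simp only [Subtype.mk.injEq, Prod.mk.injEq] at this
          exact this }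
  have hdel : ∀ m I, I.degree = d m → ∃ j, ∀ f, D.del m I f = T.del j f := by
    intro m I hI
    refine ⟨e ⟨(m, I), hI⟩, fun f => ?_⟩
    change (if h : I.degree = d m then
        (T.del (e ⟨(m, I), h⟩)).restrictScalars ℤ else 0) f = _
    rw [dif_pos hI]
    rfl
  have hdir : ∀ i, FF (dirκ (k0 := k0) T.t i) K (T.t i) := fun i => (hDir k0 K N T i).1
  have hH := hHeight k0 K N T hdir n c d D hdel hdim
  choose C hC using hH
  obtain ⟨r, θ, B, hB⟩ := hCoef k0 K N T hdir C
  let φ := hinf.natEmbedding
  let x : ℕ → Fin (n + 1) → K := fun ν => (φ ν : Fin (n + 1) → K)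
  have hxinj : Function.Injective x := fun a b hab => φ.injective (Subtype.ext hab)
  have hx1 : ∀ ν, x ν j0 = 1 := fun ν => (φ ν).2.1
  have hx0 : ∀ ν m, eval (x ν) (D.F m) = 0 := fun ν m => (φ ν).2.2 m
  have hxne : ∀ ν, x ν ≠ 0 := fun ν h => by
    have := hx1 ν
    rw [h] at this
    exact zero_ne_one this
  obtain ⟨Ω, _, _, A, y, hA, hy1, hy0, hyKE, hnot⟩ := hUltra k0 K n c d D
    (by
      intro m I hI a
      obtain ⟨j, hj⟩ := hdel m I hI
      rw [hj]
      exact (T.del j).map_algebraMap a)
    N r B T.t θ x j0 hxinj hx1 hx0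
    (fun ν j => hB n (x ν) j0 (hx1 ν) (fun i => hC i (x ν) (hxne ν) (hx0 ν)) j)
  exact hnot (hChain k0 Ω n c d A hA hdim y j0 hy1 hy0 hyKE)

end Pool.Agent.Gen.H52
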